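import Pool.Agent.Helper15.PL.Main
import Pool.Agent.Helper58.PLK.TriLt

namespace Pool.Agent.Results.MP_614ca1_co.SixtyTriangles

open Pool.Agent.Helper15.PL

/-- Some arrangement of 14 pseudo-lines in the real projective plane has at least 60 (and only
finitely many) triangular faces, while every arrangement of 14 lines has at most 59. -/
theorem result : ∃ C : Fin 14 → Set RP2, IsPseudolineArrangement C ∧
    60 ≤ numGons C 3 ∧ numGons C 3 ≠ ⊤ ∧
    ∀ L : Fin 14 → Set RP2, IsLineArrangement L → numGons L 3 ≤ 59 :=
  main_of Pool.Agent.Helper58.PLK.tri_lt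

end Pool.Agent.Results.MP_614ca1_co.SixtyTriangles
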